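import Pool.Agent.H.MP_a1f11a_an.B

namespace Pool.Agent.Results.MP_a1f11a_an.Counter

/-- The values `⟨p₁ - p₂, x₁ - x₂⟩` over unit vectors at distance `ε` and norming functionals. -/
def vals (X : Type) [NormedAddCommGroup X] [NormedSpace ℝ X] (ε : ℝ) : Set ℝ :=
  {g | ∃ (x₁ x₂ : X) (p₁ p₂ : X →L[ℝ] ℝ), ‖x₁‖ = 1 ∧ ‖x₂‖ = 1 ∧ ‖x₁ - x₂‖ = ε ∧
    ‖p₁‖ = 1 ∧ p₁ x₁ = ‖x₁‖ ∧ ‖p₂‖ = 1 ∧ p₂ x₂ = ‖x₂‖ ∧ g = (p₁ - p₂) (x₁ - x₂)}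

open Pool.Agent.H.MP_a1f11a_an in
theorem result :
    ∃ (X : Type) (_ : NormedAddCommGroup X) (_ : NormedSpace ℝ X), Module.finrank ℝ X = 2 ∧
      ∃ ε ∈ Set.Icc (0 : ℝ) 2, (vals X ε).Nonempty ∧ BddAbove (vals X ε) ∧
        sSup (vals X ε) < ε ^ 2 := by
  have hb : ∀ g ∈ vals X (1224 / 1000), g ≤ 1495 / 1000 := by
    rintro _ ⟨x, y, p, q, hx, hy, hxy, hp, hpx, hq, hqy, rfl⟩
    exact bound hx hy hxy hp hq hpx hqy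
  have hn : (vals X (1224 / 1000)).Nonempty := by
    obtain ⟨x, y, hx, hy, hxy⟩ := exists_pair
    obtain ⟨p, hp, hpx⟩ := exists_dual_vector ℝ x (by rw [hx]; norm_num)
    obtain ⟨q, hq, hqy⟩ := exists_dual_vector ℝ y (by rw [hy]; norm_num)
    exact ⟨_, x, y, p, q, hx, hy, hxy, hp, hpx, hq, hqy, rfl⟩
  refine ⟨X, inferInstance, inferInstance, finrank_X, 1224 / 1000, by norm_num, hn, ⟨_, hb⟩, ?_⟩
  exact (csSup_le hn hb).trans_lt (by norm_num)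

end Pool.Agent.Results.MP_a1f11a_an.Counter
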